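import Pool.Agent.H80.RO.Stg

/-!
MP_ba3460_lc, linear exponent in the dense regime (/team-store/H80_RLD.md): components, violations
(helper84, notation of helper80).
-/

set_option autoImplicit false
set_option linter.unusedSectionVars false

open Finset

namespace Pool.Agent.H84.RO

open Pool.Agent.H82.RD (zz lv ld af Tt Jt HH bx fam)
open Pool.Agent.H80.RO (nl Dom)

variable {ν ι : Type} [Fintype ν] [DecidableEq ν] {L g : ℕ}

/-- The component of the profile `(T, s, Dl)`: servers in `A` are left out. -/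
noncomputable def ZP (G : SimpleGraph ν) (M : ℝ) (O : Finset ι) (y : ι → Fin g → ν)
    (A : Finset (Fin g)) (q : Fin g → ν) (s : Fin L → Fin g) (Dl : Fin L → Finset (Fin g))
    (T : Finset (Fin L)) (x : Fin L → ν) : ℝ :=
  (∑ o ∈ fam O y A q, ∏ l ∈ T, ((if s l ∈ A then 1 else HH G M (x l) (y o (s l))) *
    bx G M (Dl l) (x l) (y o))) / O.card

/-- The product of the loads. -/
noncomputable def wt0 (T : Finset (Fin L)) (s : Fin L → Fin g) : ℝ :=
  ∏ l ∈ T, (((ld T s l (s l) : ℝ) + 1) / (2 * L))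

/-- The weight of the profile `(T, s)`. -/
noncomputable def wt (T : Finset (Fin L)) (s : Fin L → Fin g) : ℝ :=
  ((2 : ℝ) ^ (L + 3))⁻¹ * wt0 T s

/-- The number of servers that may lie in `A`. -/
def sig (D : ℕ) (T : Finset (Fin L)) (s : Fin L → Fin g) (f : ℕ) : ℕ :=
  4 * nl D T s f / D ^ (f + 2)

/-- `x` violates at `T`. -/
def Vio (G : SimpleGraph ν) (M : ℝ) (D : ℕ) (O : Finset ι) (y : ι → Fin g → ν) (Y th : ℝ)
    (T : Finset (Fin L)) (x : Fin L → ν) : Prop :=
  ∃ (A : Finset (Fin g)) (q : Fin g → ν) (s : Fin L → Fin g) (Dl : Fin L → Finset (Fin g)) (f : ℕ),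
    (∀ l ∈ T, Dl l ⊆ af D T s l (s l)) ∧ (∀ l ∈ T, Disjoint (Dl l) A) ∧ Dom D T s f ∧
      Tt D T s (f + 3) = ∅ ∧ (T.image s ∩ A).card ≤ sig D T s f ∧
      wt T s * (Y ^ sig D T s f)⁻¹ * th ^ A.card < |ZP G M O y A q s Dl T x|

/-- `x` violates at no nonempty subset of `P`. -/
def NoVio (G : SimpleGraph ν) (M : ℝ) (D : ℕ) (O : Finset ι) (y : ι → Fin g → ν) (Y th : ℝ)
    (P : Finset (Fin L)) (x : Fin L → ν) : Prop :=
  ∀ T ⊆ P, T.Nonempty → ¬ Vio G M D O y Y th T x

end Pool.Agent.H84.RO
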