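import Pool.Agent.H84.RO.Vb
import Pool.Agent.H82.RD.Mom
import Pool.Agent.H82.RD.Cpg

/-!
MP_ba3460_lc, linear exponent in the dense regime (/team-store/H80_RLD.md, section 3, (3)-(6)): the
prefix bound and the moment of a component over the rows `Q` (helper84).
-/

set_option autoImplicit false
set_option linter.unusedSectionVars false

open Finset

namespace Pool.Agent.H84.RO

open Pool.Agent.H82.RD (zz lv ld af Tt Jt HH bx rf fam mem_fam fam_sub bx_nonneg abs_HH_le'
  box mem_box RowOK moment copy_gen)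

variable {ν ι : Type} [Fintype ν] [DecidableEq ν] {L g : ℕ}

private lemma bx_insert {G : SimpleGraph ν} {M : ℝ} (v : ν) (j0 : Fin g) (C : Finset (Fin g))
    (h : j0 ∉ C) (yo : Fin g → ν) :
    bx G M (insert j0 C) v yo = (1 + HH G M v (yo j0)) * bx G M C v yo := by
  rw [bx_eq, bx_eq, prod_insert h]

private lemma bx_le_sdiff {G : SimpleGraph ν} {M : ℝ} (hM : 1 ≤ M) (v : ν) (C A A' : Finset (Fin g))
    (hC : Disjoint C A) (yo : Fin g → ν) :
    bx G M C v yo ≤ M ^ A'.card * bx G M (C \ (A ∪ A')) v yo := by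
  have hM0 : (0 : ℝ) ≤ M := zero_le_one.trans hM
  have h1 : C \ (A ∪ A') = C \ A' := by
    ext j
    simp only [mem_sdiff, mem_union, not_or]
    constructor
    · rintro ⟨h1, -, h2⟩
      exact ⟨h1, h2⟩
    · rintro ⟨h1, h2⟩
      exact ⟨h1, disjoint_left.1 hC h1, h2⟩
  rw [h1]
  have h2 : bx G M C v yo = bx G M (C ∩ A') v yo * bx G M (C \ A') v yo := by
    unfold bx
    rw [← prod_inter_mul_prod_sdiff C A']
  rw [h2]
  refine mul_le_mul_of_nonneg_right ?_ (bx_nonneg hM0 _ _ _)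
  have h3 : bx G M (C ∩ A') v yo ≤ M ^ (C ∩ A').card := by
    unfold bx
    rw [← prod_const]
    refine prod_le_prod (fun j _ => ?_) (fun j _ => ?_)
    · split_ifs
      · exact hM0
      · exact le_rfl
    · split_ifs
      · exact le_rfl
      · exact hM0
  exact h3.trans (pow_le_pow_right₀ hM (card_le_card inter_subset_right))

/-- (3): the prefix. -/
theorem prefix_bound {G : SimpleGraph ν} {M Y th : ℝ} (hM : 1 ≤ M) {D : ℕ} (hD : 1 ≤ D)
    (hth : 0 ≤ th) (hth1 : th ≤ 1) (hg : g ≤ L) {O : Finset ι} {y : ι → Fin g → ν}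
    (hO : O.Nonempty) {Out : Finset ν} (hOut : ∀ o ∈ O, ∀ j, y o j ∈ Out)
    (hY : (Out.card : ℝ) * M ^ L * 8 ^ L ≤ Y)
    (hsp : ∀ (A : Finset (Fin g)) (q : Fin g → ν), ((fam O y A q).card : ℝ) ≤ th ^ A.card * O.card)
    {P : Finset (Fin L)} {x : Fin L → ν} (hx : NoVio G M D O y Y th P x)
    (A : Finset (Fin g)) (s : Fin L → Fin g) (Dl : Fin L → Finset (Fin g))
    (hDA : ∀ l ∈ P, Disjoint (Dl l) A) (hsD : ∀ l ∈ P, s l ∉ Dl l) (A' : Finset (Fin g))
    (hAA : Disjoint A A') (q' : Fin g → ν) :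
    ∑ o ∈ fam O y (A ∪ A') q', |∏ l ∈ P, ((if s l ∈ A then 1 else HH G M (x l) (y o (s l))) *
        bx G M (Dl l) (x l) (y o))| ≤
      (2 ^ P.card * (9 / 8 * (th ^ A.card * O.card))) * (M ^ P.card * th) ^ A'.card := by
  have hM0 : (0 : ℝ) ≤ M := zero_le_one.trans hM
  set E : Finset (Fin L) → Fin L → Finset (Fin g) := fun P' l =>
    (if l ∈ P' then insert (s l) (Dl l) else Dl l) \ (A ∪ A') with hE
  -- one tuple
  have h1 : ∀ o, |∏ l ∈ P, ((if s l ∈ A then 1 else HH G M (x l) (y o (s l))) *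
      bx G M (Dl l) (x l) (y o))| ≤
      ∑ P' ∈ P.powerset, M ^ (P.card * A'.card) * ∏ l ∈ P, bx G M (E P' l) (x l) (y o) := by
    intro o
    rw [abs_prod]
    have h2 : ∏ l ∈ P, |(if s l ∈ A then 1 else HH G M (x l) (y o (s l))) *
        bx G M (Dl l) (x l) (y o)| ≤
        ∏ l ∈ P, ((if s l ∈ A then 0 else bx G M (insert (s l) (Dl l)) (x l) (y o)) +
          bx G M (Dl l) (x l) (y o)) := by
      refine prod_le_prod (fun l _ => abs_nonneg _) fun l hl => ?_
      have hb := bx_nonneg (G := G) hM0 (Dl l) (x l) (y o)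
      rw [abs_mul, abs_of_nonneg hb]
      by_cases h : s l ∈ A
      · rw [if_pos h, if_pos h, abs_one, one_mul, zero_add]
      · rw [if_neg h, if_neg h, bx_insert _ _ _ (hsD l hl)]
        have h3 := mul_le_mul_of_nonneg_right (abs_HH_le' (G := G) hM (x l) (y o (s l))) hb
        linarith
    refine h2.trans ?_
    rw [prod_add]
    refine sum_le_sum fun P' hP' => ?_
    rw [mem_powerset] at hP'
    have h3 : ∏ l ∈ P, bx G M (E P' l) (x l) (y o) =
        (∏ l ∈ P', bx G M (E P' l) (x l) (y o)) *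
          ∏ l ∈ P \ P', bx G M (E P' l) (x l) (y o) := by
      rw [mul_comm]
      exact (prod_sdiff hP').symm
    have h4 : M ^ (P.card * A'.card) = (∏ _l ∈ P', M ^ A'.card) * ∏ _l ∈ P \ P', M ^ A'.card := by
      rw [prod_const, prod_const, ← pow_add, ← pow_mul, mul_comm P.card]
      congr 2
      rw [add_comm]
      exact (card_sdiff_add_card_eq_card hP').symm
    rw [h3, h4, mul_mul_mul_comm, ← prod_mul_distrib, ← prod_mul_distrib]
    refine mul_le_mul ?_ ?_ ?_ ?_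
    · refine prod_le_prod (fun l _ => ?_) fun l hl => ?_
      · split_ifs
        · exact le_rfl
        · exact bx_nonneg hM0 _ _ _
      · by_cases h : s l ∈ A
        · rw [if_pos h]
          exact mul_nonneg (by positivity) (bx_nonneg hM0 _ _ _)
        · rw [if_neg h, hE]
          simp only [hl, if_true]
          refine bx_le_sdiff hM _ _ _ _ ?_ _
          rw [disjoint_insert_left]
          exact ⟨h, hDA l (hP' hl)⟩
    · refine prod_le_prod (fun l _ => bx_nonneg hM0 _ _ _) fun l hl => ?_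
      rw [mem_sdiff] at hl
      rw [hE]
      simp only [hl.2, if_false]
      exact bx_le_sdiff hM _ _ _ _ (hDA l hl.1) _
    · exact prod_nonneg fun l _ => bx_nonneg hM0 _ _ _
    · exact prod_nonneg fun l _ => mul_nonneg (by positivity) (bx_nonneg hM0 _ _ _)
  refine (sum_le_sum fun o _ => h1 o).trans ?_
  rw [sum_comm]
  have h2 : ∀ P' ∈ P.powerset, ∑ o ∈ fam O y (A ∪ A') q',
      M ^ (P.card * A'.card) * ∏ l ∈ P, bx G M (E P' l) (x l) (y o) ≤
      M ^ (P.card * A'.card) * (9 / 8 * (th ^ (A ∪ A').card * O.card)) := by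
    intro P' _
    rw [← mul_sum]
    refine mul_le_mul_of_nonneg_left ?_ (by positivity)
    exact vb_le hM hD hth hth1 hg hO hOut hY hsp hx (A ∪ A') q' (E P')
      (fun l => sdiff_disjoint) P (Subset.refl _)
  refine (sum_le_sum h2).trans (le_of_eq ?_)
  rw [sum_const, card_powerset, card_union_of_disjoint hAA, nsmul_eq_mul, mul_pow, ← pow_mul,
    pow_add]
  push_cast
  ring

/-- The power `(1 + x) ^ g`. -/
theorem one_add_pow_le {x : ℝ} (hx : 0 ≤ x) (hg : x * g ≤ 1) : (1 + x) ^ g ≤ 3 := by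
  have h1 : 1 + x ≤ Real.exp x := by
    have := Real.add_one_le_exp x
    linarith
  calc (1 + x) ^ g ≤ Real.exp x ^ g := pow_le_pow_left₀ (by linarith) h1 g
    _ = Real.exp (g * x) := (Real.exp_nat_mul x g).symm
    _ ≤ Real.exp 1 := Real.exp_le_exp.2 (by linarith)
    _ ≤ 3 := by
        have := Real.exp_one_lt_d9
        linarith

open Classical in
/-- (4)-(6): the moment over the rows `Q` and Markov's inequality. -/
theorem few_ev {G : SimpleGraph ν} {M C τ bl Y th : ℝ} (hM : 1 ≤ M) (hC : 1 ≤ C) (hτ : 1 ≤ τ)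
    (hbl : 1 ≤ bl) {D : ℕ} (hD : 1 ≤ D)
    (hth : 0 ≤ th) (hth1 : th ≤ 1) (hg : g ≤ L) {O : Finset ι} {y : ι → Fin g → ν}
    (hO : O.Nonempty) (hinj : ∀ o ∈ O, Function.Injective (y o))
    {Out : Finset ν} (hOut : ∀ o ∈ O, ∀ j, y o j ∈ Out)
    (hY : (Out.card : ℝ) * M ^ L * 8 ^ L ≤ Y)
    (hsp : ∀ (A : Finset (Fin g)) (q : Fin g → ν), ((fam O y A q).card : ℝ) ≤ th ^ A.card * O.card)
    {Λ : Finset ν} (hΛ : ∀ o ∈ O, ∀ j, y o j ∈ Λ) (W : Fin L → Finset ν)
    (T Q : Finset (Fin L)) (hQT : Q ⊆ T) (k KK : ℕ) (hk : 1 ≤ k)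
    (A : Finset (Fin g)) (q : Fin g → ν) (s : Fin L → Fin g) (Dl : Fin L → Finset (Fin g))
    (hDA : ∀ l ∈ T, Disjoint (Dl l) A) (hsD : ∀ l ∈ T, s l ∉ Dl l) (hsA : ∀ l ∈ Q, s l ∉ A)
    (hKK : k * (Q.biUnion fun l => insert (s l) (Dl l)).card ≤ KK)
    (hrow : ∀ l ∈ Q, RowOK G M (W l) Λ (2 * KK) (2 * KK) C τ) (μ : ℕ) (hμ : τ ≤ bl ^ μ)
    (hexp : ∀ S' ⊆ Q, μ * S'.card ≤ k * (S'.image s).card)
    (hcr : 2 * k * g * (bl * M ^ T.card * th) * g ≤ 1)
    (x0 : Fin L → ν) (hx : NoVio G M D O y Y th (T \ Q) x0) (thr : ℝ) (hthr : 0 ≤ thr) :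
    τ ^ Q.card * (thr ^ (2 * k) *
      (((box W Q x0).filter fun x => thr < |ZP G M O y A q s Dl T x|).card : ℝ)) ≤
      (∏ l ∈ Q, ((W l).card : ℝ)) * (4 ^ KK * C) ^ Q.card *
        (3 * (2 ^ (T \ Q).card * (9 / 8 * th ^ A.card))) ^ (2 * k) := by
  have hM0 : (0 : ℝ) ≤ M := zero_le_one.trans hM
  have hτ0 : (0 : ℝ) ≤ τ := zero_le_one.trans hτ
  have hO0 : (0 : ℝ) < O.card := by exact_mod_cast hO.card_pos
  obtain ⟨N, hN⟩ : ∃ N, N = Q.biUnion fun l => insert (s l) (Dl l) := ⟨_, rfl⟩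
  obtain ⟨P, hP⟩ : ∃ P, P = T \ Q := ⟨_, rfl⟩
  rw [← hN] at hKK
  rw [← hP] at hx ⊢
  have hPT : P ⊆ T := by rw [hP]; exact sdiff_subset
  have hPQ : P.card + Q.card = T.card := by rw [hP]; exact card_sdiff_add_card_eq_card hQT
  set wt : ι → ℝ := fun o => ∏ l ∈ P, ((if s l ∈ A then 1 else HH G M (x0 l) (y o (s l))) *
    bx G M (Dl l) (x0 l) (y o)) with hwt
  -- the component on the box
  have h1 : ∀ x ∈ box W Q x0, ZP G M O y A q s Dl T x =
      (∑ o ∈ fam O y A q, wt o * ∏ l ∈ Q, rf G M (x l) (s l) (Dl l) (y o)) / O.card := by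
    intro x hxb
    rw [mem_box] at hxb
    unfold ZP
    congr 1
    refine sum_congr rfl fun o _ => ?_
    rw [← prod_sdiff hQT, ← hP, hwt]
    congr 1
    · refine prod_congr rfl fun l hl => ?_
      have hlQ : l ∉ Q := by
        rw [hP, mem_sdiff] at hl
        exact hl.2
      rw [hxb.2 l hlQ]
    · refine prod_congr rfl fun l hl => ?_
      rw [if_neg (hsA l hl)]
      rfl
  -- disjointness
  have hAN : Disjoint A N := by
    rw [hN, disjoint_biUnion_right]
    intro l hl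
    rw [disjoint_insert_right]
    exact ⟨hsA l hl, (hDA l (hQT hl)).symm⟩
  set K0 : ℝ := 2 ^ P.card * (9 / 8 * (th ^ A.card * O.card)) with hK0
  have hK00 : 0 ≤ K0 := by rw [hK0]; positivity
  have hcp : ∀ B : Finset ν, B.card ≤ 2 * k * g →
      ∑ o ∈ fam O y A q, |wt o| * (M ^ Q.card * bl) ^ ((N.filter fun j => y o j ∈ B).card) ≤
        K0 * 3 := by
    intro B hB
    have h2 := copy_gen (κ := M ^ P.card * th) (K0 := K0) (La := M ^ Q.card * bl) (by positivity)
      hK00 (one_le_mul_of_one_le_of_one_le (one_le_pow₀ hM) hbl) (O := O) (y := y)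
      (fun o => |wt o|) (fun o => abs_nonneg _) A N hAN q
      (fun A' hA' q' => prefix_bound hM hD hth hth1 hg hO hOut hY hsp hx A s Dl
        (fun l hl => hDA l (hPT hl)) (fun l hl => hsD l (hPT hl)) A'
        (disjoint_of_subset_right hA' hAN) q') B
    refine h2.trans (mul_le_mul_of_nonneg_left ?_ hK00)
    have hbl0 : (0 : ℝ) ≤ bl := zero_le_one.trans hbl
    refine one_add_pow_le (by positivity) ?_
    have h3 : (B.card : ℝ) ≤ 2 * k * g := by exact_mod_cast hB
    have h4 : M ^ Q.card * bl * (M ^ P.card * th) = bl * M ^ T.card * th := by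
      rw [← hPQ, pow_add]
      ring
    rw [h4]
    refine le_trans ?_ hcr
    gcongr
  have hmom := moment hM hC hτ hbl hinj hΛ W Q Q (Subset.refl _) k KK hk A ∅ N
    (empty_subset _) (disjoint_empty_left _) (by rw [empty_union]; exact hKK) hrow μ hμ s Dl
    (fun l hl => hsD l (hQT hl)) (fun l hl => by
      rw [empty_union, hN]
      exact subset_biUnion_of_mem (fun l => insert (s l) (Dl l)) hl) (fun l hl => by
      rw [hN]
      exact mem_biUnion.2 ⟨l, hl, mem_insert_self _ _⟩) hexp q wt (fun o => |wt o|)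
    (fun o => le_rfl) (K0 * 3) hcp x0
  rw [card_empty, mul_zero, pow_zero, mul_one] at hmom
  -- Markov
  have h2 : thr ^ (2 * k) *
      (((box W Q x0).filter fun x => thr < |ZP G M O y A q s Dl T x|).card : ℝ) ≤
      (∑ x ∈ box W Q x0, (∑ o ∈ fam O y A q, wt o *
        ∏ l ∈ Q, rf G M (x l) (s l) (Dl l) (y o)) ^ (2 * k)) / (O.card : ℝ) ^ (2 * k) := by
    rw [sum_div, mul_comm, ← nsmul_eq_mul]
    have h3 : ∀ x ∈ (box W Q x0).filter (fun x => thr < |ZP G M O y A q s Dl T x|),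
        thr ^ (2 * k) ≤ (∑ o ∈ fam O y A q, wt o *
          ∏ l ∈ Q, rf G M (x l) (s l) (Dl l) (y o)) ^ (2 * k) / (O.card : ℝ) ^ (2 * k) := by
      intro x hxf
      rw [mem_filter] at hxf
      have h4 := hxf.2.le
      rw [h1 x hxf.1] at h4
      rw [← div_pow, ← Even.pow_abs (even_two_mul k) ((∑ o ∈ fam O y A q, wt o *
        ∏ l ∈ Q, rf G M (x l) (s l) (Dl l) (y o)) / (O.card : ℝ))]
      exact pow_le_pow_left₀ hthr h4 _
    refine (card_nsmul_le_sum _ _ _ h3).trans ?_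
    refine sum_le_sum_of_subset_of_nonneg (filter_subset _ _) fun x _ _ => ?_
    exact div_nonneg (Even.pow_nonneg (even_two_mul k) _) (by positivity)
  have h3 : τ ^ Q.card * (thr ^ (2 * k) *
      (((box W Q x0).filter fun x => thr < |ZP G M O y A q s Dl T x|).card : ℝ)) ≤
      ((∏ l ∈ Q, ((W l).card : ℝ)) * (4 ^ KK * C) ^ Q.card * (K0 * 3) ^ (2 * k)) /
        (O.card : ℝ) ^ (2 * k) := by
    rw [le_div_iff₀ (by positivity)]
    have h4 := mul_le_mul_of_nonneg_left h2 (pow_nonneg hτ0 Q.card)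
    rw [← mul_div_assoc, le_div_iff₀ (by positivity)] at h4
    exact h4.trans hmom
  refine h3.trans (le_of_eq ?_)
  rw [div_eq_iff (by positivity), hK0]
  have h4 : (2 : ℝ) ^ P.card * (9 / 8 * (th ^ A.card * O.card)) * 3 =
      3 * (2 ^ P.card * (9 / 8 * th ^ A.card)) * O.card := by ring
  rw [h4, mul_pow _ (O.card : ℝ)]
  ring

end Pool.Agent.H84.RO
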