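import Pool.Agent.H84.RO.Defs
import Pool.Agent.H82.RD.Spt

/-!
MP_ba3460_lc, linear exponent in the dense regime (/team-store/H80_RLD.md, section 2): the row (V)
(helper84). The steps of the expansion are copied from Pool/Agent/H82/RD/Vb.lean (helper45).
-/

set_option autoImplicit false
set_option linter.unusedSectionVars false

open Finset

namespace Pool.Agent.H84.RO

open Pool.Agent.H82.RD (zz lv ld af Tt Jt HH bx rf fam mem_fam fam_sub af_sub sv_mem Tt_sub af_irrefl
  bx_nonneg abs_HH_le split_bound)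
open Pool.Agent.H80.RO (nl Dom exists_dom dom_rem dom_Jt af_rem Tt_rem_empty wt_ratio)

variable {ν ι : Type} [Fintype ν] [DecidableEq ν] {L g : ℕ}

/-! ### The expansion of one row -/

private lemma af_step (key : Fin g → ℕ) (H : Fin g → ℝ) (C : Finset (Fin g)) :
    ∏ j ∈ C, (1 + H j) = 1 + ∑ j ∈ C, H j *
      ∏ j' ∈ C ∩ univ.filter (fun j' => key j < key j' ∨ (key j = key j' ∧ j < j')),
        (1 + H j') := by
  classical
  refine Finset.induction_on_min_value (fun j => toLex (key j, j)) C ?_ ?_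
  · simp
  · intro a s ha hmin ih
    have hlt : ∀ x ∈ s, key a < key x ∨ (key a = key x ∧ a < x) := by
      intro x hx
      have h1 := hmin x hx
      rw [Prod.Lex.toLex_le_toLex] at h1
      rcases h1 with h1 | ⟨h1, h2⟩
      · exact Or.inl h1
      · refine Or.inr ⟨h1, lt_of_le_of_ne h2 ?_⟩
        rintro rfl
        exact ha hx
    have e1 : insert a s ∩ univ.filter
        (fun j' => key a < key j' ∨ (key a = key j' ∧ a < j')) = s := by
      ext z
      simp only [mem_inter, mem_insert, mem_filter, mem_univ, true_and]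
      constructor
      · rintro ⟨rfl | hz, h⟩
        · rcases h with h | h
          · exact absurd h (lt_irrefl _)
          · exact absurd h.2 (lt_irrefl _)
        · exact hz
      · intro hz
        exact ⟨Or.inr hz, hlt z hz⟩
    have e2 : ∀ j ∈ s, insert a s ∩ univ.filter
        (fun j' => key j < key j' ∨ (key j = key j' ∧ j < j')) =
        s ∩ univ.filter (fun j' => key j < key j' ∨ (key j = key j' ∧ j < j')) := by
      intro j hj
      ext z
      simp only [mem_inter, mem_insert, mem_filter, mem_univ, true_and]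
      constructor
      · rintro ⟨rfl | hz, h⟩
        · exfalso
          rcases hlt j hj with h1 | ⟨h1, h2⟩ <;> rcases h with h3 | ⟨h3, h4⟩
          · omega
          · omega
          · omega
          · exact absurd h2 (not_lt_of_gt h4)
        · exact ⟨hz, h⟩
      · rintro ⟨hz, h⟩
        exact ⟨Or.inr hz, h⟩
    rw [prod_insert ha, sum_insert ha, e1]
    have e3 : ∑ j ∈ s, H j * ∏ j' ∈ insert a s ∩ univ.filter
        (fun j' => key j < key j' ∨ (key j = key j' ∧ j < j')), (1 + H j') =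
        ∑ j ∈ s, H j * ∏ j' ∈ s ∩ univ.filter
        (fun j' => key j < key j' ∨ (key j = key j' ∧ j < j')), (1 + H j') :=
      sum_congr rfl fun j hj => by rw [e2 j hj]
    rw [e3]
    linear_combination ih

theorem bx_eq (G : SimpleGraph ν) (M : ℝ) (C : Finset (Fin g)) (v : ν) (yo : Fin g → ν) :
    bx G M C v yo = ∏ j ∈ C, (1 + HH G M v (yo j)) := by
  unfold bx HH
  exact prod_congr rfl fun j _ => by ring

private lemma bx_step (G : SimpleGraph ν) (M : ℝ) (D : ℕ) (T1 : Finset (Fin L))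
    (s : Fin L → Fin g) (a : Fin L) (C : Finset (Fin g)) (v : ν) (yo : Fin g → ν) :
    bx G M C v yo = 1 + ∑ j ∈ C, rf G M v j (C ∩ af D T1 s a j) yo := by
  rw [bx_eq, af_step (fun j => lv D (ld T1 s a j))]
  congr 1
  refine sum_congr rfl fun j _ => ?_
  unfold rf
  rw [bx_eq]
  rfl

theorem ld_upd {T1 : Finset (Fin L)} {s : Fin L → Fin g} {a : Fin L}
    (hT : ∀ l ∈ T1, l < a) (j : Fin g) {l : Fin L} (hl : l ≤ a) (j' : Fin g) :
    ld (insert a T1) (Function.update s a j) l j' = ld T1 s l j' := by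
  unfold ld
  congr 1
  ext l'
  simp only [mem_filter, mem_insert]
  constructor
  · rintro ⟨rfl | h1, h2, h3⟩
    · exact absurd h2 (not_lt_of_ge hl)
    · rw [Function.update_of_ne (hT l' h1).ne] at h3
      exact ⟨h1, h2, h3⟩
  · rintro ⟨h1, h2, h3⟩
    refine ⟨Or.inr h1, h2, ?_⟩
    rw [Function.update_of_ne (hT l' h1).ne]
    exact h3

theorem af_upd {D : ℕ} {T1 : Finset (Fin L)} {s : Fin L → Fin g} {a : Fin L}
    (hT : ∀ l ∈ T1, l < a) (j : Fin g) {l : Fin L} (hl : l ≤ a) (j0 : Fin g) :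
    af D (insert a T1) (Function.update s a j) l j0 = af D T1 s l j0 := by
  unfold af
  simp only [ld_upd hT j hl]

private lemma row_step (G : SimpleGraph ν) (M : ℝ) (D : ℕ) {T1 : Finset (Fin L)}
    (s : Fin L → Fin g) {a : Fin L} (hT : ∀ l ∈ T1, l < a) (C : Fin L → Finset (Fin g))
    (x : Fin L → ν) (yo : Fin g → ν) :
    (∏ l ∈ T1, rf G M (x l) (s l) (C l ∩ af D T1 s l (s l)) yo) * bx G M (C a) (x a) yo =
      (∏ l ∈ T1, rf G M (x l) (s l) (C l ∩ af D T1 s l (s l)) yo) +
      ∑ j ∈ C a, ∏ l ∈ insert a T1, rf G M (x l) (Function.update s a j l)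
        (C l ∩ af D (insert a T1) (Function.update s a j) l (Function.update s a j l)) yo := by
  have ha : a ∉ T1 := fun h => lt_irrefl _ (hT a h)
  rw [bx_step G M D T1 s a, mul_add, mul_one, mul_sum]
  congr 1
  refine sum_congr rfl fun j _ => ?_
  rw [prod_insert ha, Function.update_self, af_upd hT j le_rfl, mul_comm]
  congr 1
  refine prod_congr rfl fun l hl => ?_
  rw [Function.update_of_ne (hT l hl).ne, af_upd hT j (hT l hl).le]

private lemma st_step (G : SimpleGraph ν) (M : ℝ) (D : ℕ) {T1 : Finset (Fin L)}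
    (s : Fin L → Fin g) {a : Fin L} (hT : ∀ l ∈ T1, l < a) (C : Fin L → Finset (Fin g))
    (x : Fin L → ν) (y : ι → Fin g → ν) (F : Finset ι) {R : Finset (Fin L)} (ha : a ∉ R) :
    ∑ o ∈ F, (∏ l ∈ T1, rf G M (x l) (s l) (C l ∩ af D T1 s l (s l)) (y o)) *
        ∏ l ∈ insert a R, bx G M (C l) (x l) (y o) =
      (∑ o ∈ F, (∏ l ∈ T1, rf G M (x l) (s l) (C l ∩ af D T1 s l (s l)) (y o)) *
        ∏ l ∈ R, bx G M (C l) (x l) (y o)) +
      ∑ j ∈ C a, ∑ o ∈ F, (∏ l ∈ insert a T1, rf G M (x l) (Function.update s a j l)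
        (C l ∩ af D (insert a T1) (Function.update s a j) l (Function.update s a j l)) (y o)) *
        ∏ l ∈ R, bx G M (C l) (x l) (y o) := by
  rw [sum_comm, ← sum_add_distrib]
  refine sum_congr rfl fun o _ => ?_
  rw [prod_insert ha, ← mul_assoc, row_step G M D s hT C x (y o), add_mul, sum_mul]

/-! ### The weights, row by row (F3) -/

theorem wt0_nonneg (T : Finset (Fin L)) (s : Fin L → Fin g) : 0 ≤ wt0 T s :=
  prod_nonneg fun l _ => by positivity

/-- Sum of the loads: the rows before `l`. -/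
theorem sum_ld (T : Finset (Fin L)) (s : Fin L → Fin g) (l : Fin L) :
    ∑ j, ld T s l j = (T.filter fun i => i < l).card := by
  have h1 := card_eq_sum_card_fiberwise (f := s) (s := T.filter fun i => i < l)
    (t := (univ : Finset (Fin g))) (fun _ _ => by simp)
  rw [h1]
  refine sum_congr rfl fun j _ => ?_
  unfold ld
  rw [filter_filter]

/-- One row of (F3). -/
theorem sum_step (T : Finset (Fin L)) (s : Fin L → Fin g) (l : Fin L) (C : Finset (Fin g))
    (hg : g ≤ L) : ∑ j ∈ C, (((ld T s l j : ℝ) + 1) / (2 * L)) ≤ 1 := by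
  have hL : 0 < L := l.pos
  have hL' : (0 : ℝ) < 2 * L := by positivity
  have h1 : ∑ j ∈ C, (((ld T s l j : ℝ) + 1) / (2 * L)) ≤
      ∑ j, (((ld T s l j : ℝ) + 1) / (2 * L)) :=
    sum_le_sum_of_subset_of_nonneg (subset_univ _) fun j _ _ => by positivity
  refine h1.trans ?_
  rw [← sum_div, div_le_one hL', sum_add_distrib]
  have h2 : ∑ j, (ld T s l j : ℝ) = ((T.filter fun i => i < l).card : ℝ) := by
    exact_mod_cast sum_ld T s l
  rw [h2]
  simp only [sum_const, card_univ, Fintype.card_fin, nsmul_eq_mul, mul_one]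
  have h3 : (T.filter fun i => i < l).card ≤ L := by
    refine (card_le_univ _).trans ?_
    rw [Fintype.card_fin]
  have h4 : ((T.filter fun i => i < l).card : ℝ) ≤ L := by exact_mod_cast h3
  have h5 : (g : ℝ) ≤ L := by exact_mod_cast hg
  linarith

theorem wt0_upd {T1 : Finset (Fin L)} {s : Fin L → Fin g} {a : Fin L}
    (hT : ∀ l ∈ T1, l < a) (j : Fin g) :
    wt0 (insert a T1) (Function.update s a j) =
      wt0 T1 s * (((ld T1 s a j : ℝ) + 1) / (2 * L)) := by
  have ha : a ∉ T1 := fun h => lt_irrefl _ (hT a h)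
  unfold wt0
  rw [prod_insert ha, Function.update_self, ld_upd hT j le_rfl, mul_comm]
  congr 1
  refine prod_congr rfl fun l hl => ?_
  rw [Function.update_of_ne (hT l hl).ne, ld_upd hT j (hT l hl).le]

/-- The states: rows `T1` expanded, rows `R` not yet. -/
theorem vb_st {G : SimpleGraph ν} {M : ℝ} {D : ℕ} {O : Finset ι} {y : ι → Fin g → ν}
    {x : Fin L → ν} {A : Finset (Fin g)} {q : Fin g → ν} {C : Fin L → Finset (Fin g)} {W : ℝ}
    (hW : 0 ≤ W) (hg : g ≤ L) {P : Finset (Fin L)}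
    (H : ∀ T ⊆ P, T.Nonempty → ∀ s : Fin L → Fin g, (∀ l ∈ T, s l ∈ C l) →
      |∑ o ∈ fam O y A q, ∏ l ∈ T, rf G M (x l) (s l) (C l ∩ af D T s l (s l)) (y o)| ≤
        W * wt0 T s) (R : Finset (Fin L)) :
    ∀ (T1 : Finset (Fin L)) (s : Fin L → Fin g), T1 ⊆ P → R ⊆ P → T1.Nonempty →
      (∀ l ∈ T1, ∀ r ∈ R, l < r) → (∀ l ∈ T1, s l ∈ C l) →
      |∑ o ∈ fam O y A q, (∏ l ∈ T1, rf G M (x l) (s l) (C l ∩ af D T1 s l (s l)) (y o)) *
        ∏ l ∈ R, bx G M (C l) (x l) (y o)| ≤ W * wt0 T1 s * 2 ^ R.card := by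
  refine Finset.induction_on_min R ?_ ?_
  · intro T1 s hT1 hR hne hlt hs
    simp only [prod_empty, mul_one, card_empty, pow_zero]
    exact H T1 hT1 hne s hs
  · intro a R' hmin ih T1 s hT1 hR hne hlt hs
    have haR : a ∉ R' := fun h => lt_irrefl _ (hmin a h)
    have hTa : ∀ l ∈ T1, l < a := fun l hl => hlt l hl a (mem_insert_self _ _)
    have hR' : R' ⊆ P := (subset_insert _ _).trans hR
    rw [st_step G M D s hTa C x y _ haR]
    refine (abs_add_le _ _).trans ?_
    have h1 := ih T1 s hT1 hR' hne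
      (fun l hl r hr => hlt l hl r (mem_insert_of_mem hr)) hs
    have h2 : ∀ j ∈ C a, |∑ o ∈ fam O y A q, (∏ l ∈ insert a T1,
        rf G M (x l) (Function.update s a j l) (C l ∩ af D (insert a T1)
        (Function.update s a j) l (Function.update s a j l)) (y o)) *
        ∏ l ∈ R', bx G M (C l) (x l) (y o)| ≤
        W * (wt0 T1 s * (((ld T1 s a j : ℝ) + 1) / (2 * L))) * 2 ^ R'.card := by
      intro j hj
      have h3 := ih (insert a T1) (Function.update s a j)
        (insert_subset (hR (mem_insert_self _ _)) hT1) hR' (insert_nonempty _ _)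
        (fun l hl r hr => by
          rcases mem_insert.1 hl with rfl | hl
          · exact hmin r hr
          · exact hlt l hl r (mem_insert_of_mem hr))
        (fun l hl => by
          rcases mem_insert.1 hl with rfl | hl
          · rw [Function.update_self]; exact hj
          · rw [Function.update_of_ne (hTa l hl).ne]; exact hs l hl)
      rwa [wt0_upd hTa] at h3
    have h4 : |∑ j ∈ C a, ∑ o ∈ fam O y A q, (∏ l ∈ insert a T1,
        rf G M (x l) (Function.update s a j l) (C l ∩ af D (insert a T1)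
        (Function.update s a j) l (Function.update s a j l)) (y o)) *
        ∏ l ∈ R', bx G M (C l) (x l) (y o)| ≤ W * wt0 T1 s * 2 ^ R'.card := by
      refine (abs_sum_le_sum_abs _ _).trans ((sum_le_sum h2).trans ?_)
      calc ∑ j ∈ C a, W * (wt0 T1 s * (((ld T1 s a j : ℝ) + 1) / (2 * L))) * 2 ^ R'.card
          = W * wt0 T1 s * 2 ^ R'.card * ∑ j ∈ C a, (((ld T1 s a j : ℝ) + 1) / (2 * L)) := by
            rw [mul_sum]
            exact sum_congr rfl fun j _ => by ring
        _ ≤ W * wt0 T1 s * 2 ^ R'.card * 1 :=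
            mul_le_mul_of_nonneg_left (sum_step T1 s a (C a) hg)
              (mul_nonneg (mul_nonneg hW (wt0_nonneg _ _)) (by positivity))
        _ = _ := mul_one _
    rw [card_insert_of_notMem haR]
    refine (add_le_add h1 h4).trans (le_of_eq ?_)
    ring

/-- The sum of all components. -/
theorem vb_sum {G : SimpleGraph ν} {M : ℝ} {D : ℕ} {O : Finset ι} {y : ι → Fin g → ν}
    {x : Fin L → ν} {A : Finset (Fin g)} {q : Fin g → ν} {C : Fin L → Finset (Fin g)} {W : ℝ}
    (hW : 0 ≤ W) (hg : g ≤ L) {P : Finset (Fin L)}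
    (H : ∀ T ⊆ P, T.Nonempty → ∀ s : Fin L → Fin g, (∀ l ∈ T, s l ∈ C l) →
      |∑ o ∈ fam O y A q, ∏ l ∈ T, rf G M (x l) (s l) (C l ∩ af D T s l (s l)) (y o)| ≤
        W * wt0 T s) (R : Finset (Fin L)) (hR : R ⊆ P) :
    |(∑ o ∈ fam O y A q, ∏ l ∈ R, bx G M (C l) (x l) (y o)) - (fam O y A q).card| ≤
      W * (2 ^ R.card - 1) := by
  revert hR
  refine Finset.induction_on_min R ?_ ?_
  · intro _
    simp
  · intro a R' hmin ih hR
    have haR : a ∉ R' := fun h => lt_irrefl _ (hmin a h)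
    have hR' : R' ⊆ P := (subset_insert _ _).trans hR
    have h1 := ih hR'
    rw [card_insert_of_notMem haR]
    have hpow : (1 : ℝ) ≤ 2 ^ R'.card := one_le_pow₀ (by norm_num)
    rcases (C a).eq_empty_or_nonempty with he | ⟨j0, hj0⟩
    · have e1 : ∀ o, bx G M (C a) (x a) (y o) = 1 := by
        intro o
        unfold bx
        rw [he, prod_empty]
      have e2 : ∀ o ∈ fam O y A q, ∏ l ∈ insert a R', bx G M (C l) (x l) (y o) =
          ∏ l ∈ R', bx G M (C l) (x l) (y o) := by
        intro o _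
        rw [prod_insert haR, e1, one_mul]
      rw [sum_congr rfl e2]
      refine h1.trans (mul_le_mul_of_nonneg_left ?_ hW)
      rw [pow_succ]
      linarith
    · have h2 := st_step G M D (T1 := ∅) (fun _ => j0) (a := a)
        (fun l hl => absurd hl (notMem_empty _)) C x y (fam O y A q) haR
      simp only [prod_empty, one_mul, insert_empty_eq] at h2
      rw [h2]
      have hw1 : ∀ j : Fin g, wt0 {a} (Function.update (fun _ => j0) a j) =
          ((ld (∅ : Finset (Fin L)) (fun _ => j0) a j : ℝ) + 1) / (2 * L) := by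
        intro j
        have h3 := wt0_upd (T1 := ∅) (s := fun _ => j0) (a := a)
          (fun l hl => absurd hl (notMem_empty _)) j
        rw [insert_empty_eq] at h3
        rw [h3]
        unfold wt0
        rw [prod_empty, one_mul]
      have h3 : ∀ j ∈ C a, |∑ o ∈ fam O y A q, (∏ l ∈ ({a} : Finset (Fin L)),
          rf G M (x l) (Function.update (fun _ => j0) a j l) (C l ∩ af D {a}
          (Function.update (fun _ => j0) a j) l (Function.update (fun _ => j0) a j l)) (y o)) *
          ∏ l ∈ R', bx G M (C l) (x l) (y o)| ≤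
          W * (((ld (∅ : Finset (Fin L)) (fun _ => j0) a j : ℝ) + 1) / (2 * L)) *
            2 ^ R'.card := by
        intro j hj
        have h4 := vb_st hW hg H R' {a} (Function.update (fun _ => j0) a j)
          (singleton_subset_iff.2 (hR (mem_insert_self _ _))) hR' (singleton_nonempty _)
          (fun l hl r hr => by
            rw [mem_singleton.1 hl]
            exact hmin r hr)
          (fun l hl => by
            rw [mem_singleton.1 hl, Function.update_self]
            exact hj)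
        rwa [hw1] at h4
      have h5 : |∑ j ∈ C a, ∑ o ∈ fam O y A q, (∏ l ∈ ({a} : Finset (Fin L)),
          rf G M (x l) (Function.update (fun _ => j0) a j l) (C l ∩ af D {a}
          (Function.update (fun _ => j0) a j) l (Function.update (fun _ => j0) a j l)) (y o)) *
          ∏ l ∈ R', bx G M (C l) (x l) (y o)| ≤ W * 2 ^ R'.card := by
        refine (abs_sum_le_sum_abs _ _).trans ((sum_le_sum h3).trans ?_)
        calc ∑ j ∈ C a, W * (((ld (∅ : Finset (Fin L)) (fun _ => j0) a j : ℝ) + 1) / (2 * L)) *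
              2 ^ R'.card
            = W * 2 ^ R'.card * ∑ j ∈ C a,
              (((ld (∅ : Finset (Fin L)) (fun _ => j0) a j : ℝ) + 1) / (2 * L)) := by
              rw [mul_sum]
              exact sum_congr rfl fun j _ => by ring
          _ ≤ W * 2 ^ R'.card * 1 :=
              mul_le_mul_of_nonneg_left (sum_step ∅ (fun _ => j0) a (C a) hg)
                (mul_nonneg hW (by positivity))
          _ = _ := mul_one _
      rw [add_sub_right_comm]
      refine (abs_add_le _ _).trans ((add_le_add h1 h5).trans (le_of_eq ?_))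
      rw [pow_succ]
      ring

/-! ### The removal of the rows of high level -/

/-- The letters of `S` prescribed: the remaining factors. -/
theorem pull_out {G : SimpleGraph ν} {M : ℝ} (hM : 1 ≤ M) {O : Finset ι} {y : ι → Fin g → ν}
    (A S : Finset (Fin g)) (om : Fin g → ν) (T : Finset (Fin L)) (s : Fin L → Fin g)
    (Dl : Fin L → Finset (Fin g)) (hs : ∀ l ∈ T, s l ∉ Dl l) (hsA : ∀ l ∈ T, s l ∉ A)
    (x : Fin L → ν) :
    |∑ o ∈ fam O y (A ∪ S) om, ∏ l ∈ T, rf G M (x l) (s l) (Dl l) (y o)| ≤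
      M ^ (T.card * S.card) *
        |∑ o ∈ fam O y (A ∪ S) om, ∏ l ∈ T, ((if s l ∈ A ∪ S then 1 else
          HH G M (x l) (y o (s l))) * bx G M (Dl l \ S) (x l) (y o))| := by
  have hM0 : (0 : ℝ) ≤ M := le_trans zero_le_one hM
  have hbx : ∀ (C : Finset (Fin g)) (v : ν) (yo : Fin g → ν), bx G M C v yo ≤ M ^ C.card := by
    intro C v yo
    unfold bx
    rw [← prod_const]
    refine prod_le_prod (fun j _ => ?_) (fun j _ => ?_)
    · split_ifs
      · exact hM0
      · exact le_rfl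
    · split_ifs
      · exact le_rfl
      · exact hM0
  set c : Fin L → ℝ := fun l => (if s l ∈ S then HH G M (x l) (om (s l)) else 1) *
    bx G M (Dl l ∩ S) (x l) om with hc
  have h1 : ∀ o ∈ fam O y (A ∪ S) om, ∏ l ∈ T, rf G M (x l) (s l) (Dl l) (y o) =
      (∏ l ∈ T, c l) * ∏ l ∈ T, ((if s l ∈ A ∪ S then 1 else
          HH G M (x l) (y o (s l))) * bx G M (Dl l \ S) (x l) (y o)) := by
    intro o ho
    have h2 := (mem_fam.1 ho).2
    have h3 : ∀ j ∈ S, y o j = om j := fun j hj => h2 j (mem_union_right _ hj)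
    rw [← prod_mul_distrib]
    refine prod_congr rfl fun l hl => ?_
    have h4 : bx G M (Dl l) (x l) (y o) =
        bx G M (Dl l ∩ S) (x l) om * bx G M (Dl l \ S) (x l) (y o) := by
      have h5 : bx G M (Dl l ∩ S) (x l) om = bx G M (Dl l ∩ S) (x l) (y o) := by
        unfold bx
        refine prod_congr rfl fun j hj => ?_
        rw [h3 j (mem_inter.1 hj).2]
      rw [h5]
      unfold bx
      rw [← prod_inter_mul_prod_sdiff (Dl l) S]
    unfold rf
    rw [h4, hc]
    simp only
    by_cases h6 : s l ∈ S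
    · rw [if_pos h6, if_pos (mem_union_right _ h6), h3 _ h6]
      ring
    · rw [if_neg h6, if_neg (fun h => (mem_union.1 h).elim (hsA l hl) h6)]
      ring
  rw [sum_congr rfl h1, ← mul_sum, abs_mul]
  refine mul_le_mul_of_nonneg_right ?_ (abs_nonneg _)
  rw [abs_prod, mul_comm, pow_mul, ← prod_const]
  refine prod_le_prod (fun l _ => abs_nonneg _) (fun l hl => ?_)
  rw [hc]
  simp only
  rw [abs_mul, abs_of_nonneg (bx_nonneg hM0 _ _ _)]
  by_cases h6 : s l ∈ S
  · rw [if_pos h6]
    have h7 : |HH G M (x l) (om (s l))| * bx G M (Dl l ∩ S) (x l) om ≤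
        M * M ^ (Dl l ∩ S).card :=
      mul_le_mul (abs_HH_le hM _ _) (hbx _ _ _) (bx_nonneg hM0 _ _ _) hM0
    refine h7.trans ?_
    rw [← pow_succ']
    refine pow_le_pow_right₀ hM ?_
    rw [← card_insert_of_notMem (s := Dl l ∩ S) (a := s l) (fun h => hs l hl (mem_inter.1 h).1)]
    exact card_le_card (insert_subset h6 inter_subset_right)
  · rw [if_neg h6, abs_one, one_mul]
    exact (hbx _ _ _).trans (pow_le_pow_right₀ hM (card_le_card inter_subset_right))

/-- Every component is small if there is no violation. -/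
theorem comp_small {G : SimpleGraph ν} {M Y th : ℝ} (hM : 1 ≤ M) {D : ℕ} (hD : 1 ≤ D)
    (hth : 0 ≤ th) (hth1 : th ≤ 1) {O : Finset ι} {y : ι → Fin g → ν} (hO : O.Nonempty)
    {Out : Finset ν} (hOut : ∀ o ∈ O, ∀ j, y o j ∈ Out)
    (hY : (Out.card : ℝ) * M ^ L * 8 ^ L ≤ Y) {P : Finset (Fin L)} {x : Fin L → ν}
    (hx : NoVio G M D O y Y th P x) (A : Finset (Fin g)) (q : Fin g → ν)
    (C : Fin L → Finset (Fin g)) (hC : ∀ l, Disjoint (C l) A) (T : Finset (Fin L)) (hT : T ⊆ P)
    (hne : T.Nonempty) (s : Fin L → Fin g) (hs : ∀ l ∈ T, s l ∈ C l) :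
    |∑ o ∈ fam O y A q, ∏ l ∈ T, rf G M (x l) (s l) (C l ∩ af D T s l (s l)) (y o)| ≤
      (((2 : ℝ) ^ (L + 3))⁻¹ * th ^ A.card * O.card) * wt0 T s := by
  have hM0 : (0 : ℝ) ≤ M := le_trans zero_le_one hM
  have hL : 1 ≤ L := by
    obtain ⟨l, -⟩ := hne
    exact l.pos
  have hO0 : (0 : ℝ) < O.card := by exact_mod_cast hO.card_pos
  have hOut1 : (1 : ℝ) ≤ Out.card := by
    obtain ⟨o, ho⟩ := hO
    obtain ⟨l, hl⟩ := hne
    exact_mod_cast card_pos.2 ⟨_, hOut o ho (s l)⟩
  have hX1 : 1 ≤ (Out.card : ℝ) * M ^ L * 8 ^ L :=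
    one_le_mul_of_one_le_of_one_le (one_le_mul_of_one_le_of_one_le hOut1 (one_le_pow₀ hM))
      (one_le_pow₀ (by norm_num))
  have hY1 : 1 ≤ Y := hX1.trans hY
  obtain ⟨f, hf⟩ := exists_dom (D := D) (T := T) (s := s) hD hne
  set T' := T \ Tt D T s (f + 3) with hT'
  set S := Jt D T s (f + 3) \ A with hS
  set Dl : Fin L → Finset (Fin g) := fun l => C l ∩ af D T s l (s l) with hDl
  have hsA : ∀ l ∈ T, s l ∉ A := fun l hl h => disjoint_left.1 (hC l) (hs l hl) h
  have hDA : ∀ l, Disjoint (Dl l) A := fun l => disjoint_of_subset_left inter_subset_left (hC l)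
  have hsD : ∀ l, s l ∉ Dl l := fun l h => af_irrefl (mem_inter.1 h).2
  have hTT : T' ⊆ T := sdiff_subset
  obtain ⟨hf', hfe⟩ := dom_rem hD hf
  -- the number of prescribed positions
  have hScard : S.card ≤ sig D T' s f := by
    unfold sig
    rw [hfe, Nat.le_div_iff_mul_le (by positivity)]
    exact (Nat.mul_le_mul_right _ (card_le_card sdiff_subset)).trans (dom_Jt hD hf)
  -- split
  have h1 := split_bound (G := G) hM hOut A S q (disjoint_sdiff) (Tt D T s (f + 3)) s Dl
    (fun l _ => hsD l) (fun l hl => by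
      have hlT : l ∈ T := Tt_sub _ hl
      refine insert_subset ?_ ?_
      · exact mem_sdiff.2 ⟨sv_mem hD hl, hsA l hlT⟩
      · intro j hj
        refine mem_sdiff.2 ⟨af_sub hD hl (mem_inter.1 hj).2, ?_⟩
        exact disjoint_left.1 (hDA l) hj)
    (fun o => ∏ l ∈ T', rf G M (x l) (s l) (Dl l) (y o)) x
  have h2 : ∑ o ∈ fam O y A q, ∏ l ∈ T, rf G M (x l) (s l) (Dl l) (y o) =
      ∑ o ∈ fam O y A q, (∏ l ∈ T', rf G M (x l) (s l) (Dl l) (y o)) *
        ∏ l ∈ Tt D T s (f + 3), rf G M (x l) (s l) (Dl l) (y o) := by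
    refine sum_congr rfl fun o _ => ?_
    rw [hT', prod_sdiff (Tt_sub _)]
  have hT'ne : T'.Nonempty := by
    have h3 := hf'.1
    obtain ⟨l, hl⟩ := card_pos.1 h3
    exact ⟨l, Tt_sub _ (mem_sdiff.1 hl).1⟩
  -- one choice of the letters
  have h3 : ∀ om : Fin g → ν, |∑ o ∈ fam O y (A ∪ S) om, ∏ l ∈ T',
      rf G M (x l) (s l) (Dl l) (y o)| ≤
      M ^ (T'.card * S.card) * (wt T' s * (Y ^ sig D T' s f)⁻¹ * th ^ A.card * O.card) := by
    intro om
    refine (pull_out hM A S om T' s Dl (fun l _ => hsD l) (fun l hl => hsA l (hTT hl)) x).trans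
      (mul_le_mul_of_nonneg_left ?_ (by positivity))
    have h4 : ¬ Vio G M D O y Y th T' x := hx T' (hTT.trans hT) hT'ne
    have h5 : |ZP G M O y (A ∪ S) om s (fun l => Dl l \ S) T' x| ≤
        wt T' s * (Y ^ sig D T' s f)⁻¹ * th ^ (A ∪ S).card := by
      by_contra hcon
      push Not at hcon
      refine h4 ⟨A ∪ S, om, s, fun l => Dl l \ S, f, ?_, ?_, hf', Tt_rem_empty hD le_rfl, ?_,
        hcon⟩
      · intro l hl
        rw [hT', af_rem hD (by rw [← hT']; exact hl)]
        exact sdiff_subset.trans inter_subset_right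
      · intro l _
        rw [disjoint_union_right]
        exact ⟨disjoint_of_subset_left sdiff_subset (hDA l), sdiff_disjoint⟩
      · refine le_trans (card_le_card ?_) hScard
        intro j hj
        rw [mem_inter, mem_image, mem_union] at hj
        obtain ⟨⟨l, hl, rfl⟩, h6 | h6⟩ := hj
        · exact absurd h6 (hsA l (hTT hl))
        · exact h6
    unfold ZP at h5
    rw [abs_div, abs_of_pos hO0, div_le_iff₀ hO0] at h5
    refine h5.trans (mul_le_mul_of_nonneg_right ?_ hO0.le)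
    refine mul_le_mul_of_nonneg_left ?_ ?_
    · exact pow_le_pow_of_le_one hth hth1 (card_le_card subset_union_left)
    · have := wt0_nonneg T' s
      unfold wt
      positivity
  have h4 : ∑ om ∈ Fintype.piFinset (fun j => if j ∈ S then Out else {q j}),
      |∑ o ∈ fam O y (A ∪ S) om, ∏ l ∈ T', rf G M (x l) (s l) (Dl l) (y o)| ≤
      (Out.card : ℝ) ^ S.card * (M ^ (T'.card * S.card) *
        (wt T' s * (Y ^ sig D T' s f)⁻¹ * th ^ A.card * O.card)) := by
    refine (sum_le_card_nsmul _ _ _ fun om _ => h3 om).trans (le_of_eq ?_)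
    rw [nsmul_eq_mul]
    congr 1
    rw [Fintype.card_piFinset]
    push_cast
    rw [← prod_subset (subset_univ S)]
    · rw [← prod_const]
      refine prod_congr rfl fun j hj => ?_
      rw [if_pos hj]
    · intro j _ hj
      rw [if_neg hj, card_singleton, Nat.cast_one]
  rw [h2]
  refine h1.trans ((mul_le_mul_of_nonneg_left h4 (by positivity)).trans ?_)
  -- arithmetic
  have h5 := wt_ratio (T := T) (s := s) hD hL (f + 3) (S := S) (fun l hl =>
    mem_sdiff.2 ⟨sv_mem hD hl, hsA l (Tt_sub _ hl)⟩)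
  have h6 : wt0 T' s ≤ (8 ^ L) ^ S.card * wt0 T s := by
    rw [one_div, inv_pow, inv_mul_le_iff₀ (by positivity)] at h5
    exact h5
  have h7 : (Tt D T s (f + 3)).card + T'.card ≤ L := by
    have h8 : (Tt D T s (f + 3)).card + T'.card = T.card := by
      rw [hT', add_comm]
      exact card_sdiff_add_card_eq_card (Tt_sub _)
    rw [h8]
    have := card_le_univ T
    rwa [Fintype.card_fin] at this
  have h8 : M ^ ((Tt D T s (f + 3)).card * S.card) * M ^ (T'.card * S.card) ≤
      (M ^ L) ^ S.card := by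
    rw [← pow_add, ← add_mul, ← pow_mul]
    exact pow_le_pow_right₀ hM (Nat.mul_le_mul_right _ h7)
  have h9 : ((Out.card : ℝ) * M ^ L * 8 ^ L) ^ S.card * (Y ^ sig D T' s f)⁻¹ ≤ 1 := by
    rw [← div_eq_mul_inv, div_le_one (by positivity)]
    exact (pow_le_pow_left₀ (by positivity) hY _).trans (pow_le_pow_right₀ hY1 hScard)
  have h10 := wt0_nonneg T s
  have h11 := wt0_nonneg T' s
  calc M ^ ((Tt D T s (f + 3)).card * S.card) * ((Out.card : ℝ) ^ S.card *
        (M ^ (T'.card * S.card) * (wt T' s * (Y ^ sig D T' s f)⁻¹ * th ^ A.card * O.card)))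
      = (M ^ ((Tt D T s (f + 3)).card * S.card) * M ^ (T'.card * S.card)) *
        ((Out.card : ℝ) ^ S.card * (((2 : ℝ) ^ (L + 3))⁻¹ * wt0 T' s *
          (Y ^ sig D T' s f)⁻¹ * th ^ A.card * O.card)) := by unfold wt; ring
    _ ≤ (M ^ L) ^ S.card * ((Out.card : ℝ) ^ S.card * (((2 : ℝ) ^ (L + 3))⁻¹ *
          ((8 ^ L) ^ S.card * wt0 T s) * (Y ^ sig D T' s f)⁻¹ * th ^ A.card * O.card)) := by
        gcongr
    _ = (((2 : ℝ) ^ (L + 3))⁻¹ * th ^ A.card * O.card) * wt0 T s *
          (((Out.card : ℝ) * M ^ L * 8 ^ L) ^ S.card * (Y ^ sig D T' s f)⁻¹) := by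
        rw [mul_pow, mul_pow]
        ring
    _ ≤ (((2 : ℝ) ^ (L + 3))⁻¹ * th ^ A.card * O.card) * wt0 T s * 1 :=
        mul_le_mul_of_nonneg_left h9 (by positivity)
    _ = _ := mul_one _

/-- **(V)** -/
theorem vb_main {G : SimpleGraph ν} {M Y th : ℝ} (hM : 1 ≤ M) {D : ℕ} (hD : 1 ≤ D)
    (hth : 0 ≤ th) (hth1 : th ≤ 1) (hg : g ≤ L) {O : Finset ι} {y : ι → Fin g → ν}
    (hO : O.Nonempty) {Out : Finset ν} (hOut : ∀ o ∈ O, ∀ j, y o j ∈ Out)
    (hY : (Out.card : ℝ) * M ^ L * 8 ^ L ≤ Y) {P : Finset (Fin L)} {x : Fin L → ν}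
    (hx : NoVio G M D O y Y th P x) (A : Finset (Fin g)) (q : Fin g → ν)
    (C : Fin L → Finset (Fin g)) (hC : ∀ l, Disjoint (C l) A) (R : Finset (Fin L)) (hR : R ⊆ P) :
    |(∑ o ∈ fam O y A q, ∏ l ∈ R, bx G M (C l) (x l) (y o)) - (fam O y A q).card| ≤
      th ^ A.card * O.card / 8 := by
  have h1 := vb_sum (W := ((2 : ℝ) ^ (L + 3))⁻¹ * th ^ A.card * O.card) (by positivity) hg
    (fun T hT hne s hs => comp_small hM hD hth hth1 hO hOut hY hx A q C hC T hT hne s hs) R hR
  refine h1.trans ?_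
  have h2 : (2 : ℝ) ^ R.card ≤ 2 ^ L := by
    refine pow_le_pow_right₀ (by norm_num) ?_
    have := card_le_univ R
    rwa [Fintype.card_fin] at this
  have h3 : (2 : ℝ) ^ R.card - 1 ≤ 2 ^ L := by linarith
  calc ((2 : ℝ) ^ (L + 3))⁻¹ * th ^ A.card * O.card * (2 ^ R.card - 1)
      ≤ ((2 : ℝ) ^ (L + 3))⁻¹ * th ^ A.card * O.card * 2 ^ L :=
        mul_le_mul_of_nonneg_left h3 (by positivity)
    _ = th ^ A.card * O.card / 8 := by
        rw [pow_add]
        field_simp
        ring

theorem vb_le {G : SimpleGraph ν} {M Y th : ℝ} (hM : 1 ≤ M) {D : ℕ} (hD : 1 ≤ D)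
    (hth : 0 ≤ th) (hth1 : th ≤ 1) (hg : g ≤ L) {O : Finset ι} {y : ι → Fin g → ν}
    (hO : O.Nonempty) {Out : Finset ν} (hOut : ∀ o ∈ O, ∀ j, y o j ∈ Out)
    (hY : (Out.card : ℝ) * M ^ L * 8 ^ L ≤ Y)
    (hsp : ∀ (A : Finset (Fin g)) (q : Fin g → ν), ((fam O y A q).card : ℝ) ≤ th ^ A.card * O.card)
    {P : Finset (Fin L)} {x : Fin L → ν}
    (hx : NoVio G M D O y Y th P x) (A : Finset (Fin g)) (q : Fin g → ν)
    (C : Fin L → Finset (Fin g)) (hC : ∀ l, Disjoint (C l) A) (R : Finset (Fin L)) (hR : R ⊆ P) :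
    ∑ o ∈ fam O y A q, ∏ l ∈ R, bx G M (C l) (x l) (y o) ≤ 9 / 8 * (th ^ A.card * O.card) := by
  have h1 := (abs_le.1 (vb_main hM hD hth hth1 hg hO hOut hY hx A q C hC R hR)).2
  have h2 := hsp A q
  linarith

end Pool.Agent.H84.RO
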